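import Pool.Agent.Lib.Ovals46.Wirtinger

/-!
# The scalar inequality for one direction

For `f, φ` of class `C¹`, `2π`-periodic, `f` having a zero, and `x = φ f`,
`∫ x'² ≥ (108/49) ∫ φ² |f|^{4/3} - (432/343) ∫ φ² |f| - (216/(343 π)) (∫ sign f) (∫ φ² f)`.
-/

set_option autoImplicit false

open MeasureTheory Set Filter Topology intervalIntegral

namespace Pool.Agent.Lib.Ovals46

/-- arithmetic-geometric mean step, with `c = w³` -/
lemma amgm_cube {al w : ℝ} (hal : 0 < al) (hw : 0 ≤ w) :
    108 / 49 * w ^ 4 - 432 / 343 * al * w ^ 3 ≤ (1 / al) ^ 2 * w ^ 6 := by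
  have key : (1 / al) ^ 2 * w ^ 6 - (108 / 49 * w ^ 4 - 432 / 343 * al * w ^ 3)
      = w ^ 3 * (w - 6 / 7 * al) ^ 2 * (w + 12 / 7 * al) / al ^ 2 := by
    field_simp
    ring
  have : 0 ≤ w ^ 3 * (w - 6 / 7 * al) ^ 2 * (w + 12 / 7 * al) / al ^ 2 := by positivity
  linarith

lemma amgm {a c : ℝ} (ha : 0 < a) (hc : 0 ≤ c) :
    108 / 49 * c ^ (4 / 3 : ℝ) - 432 / (343 * Real.pi) * a * c ≤ (Real.pi / a) ^ 2 * c ^ 2 := by
  have hpi := Real.pi_pos
  set w := c ^ (1 / 3 : ℝ) with hw
  have hw0 : 0 ≤ w := Real.rpow_nonneg hc _
  have h3 : w ^ 3 = c := by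
    rw [hw, ← Real.rpow_natCast, ← Real.rpow_mul hc]
    norm_num
  have h4 : w ^ 4 = c ^ (4 / 3 : ℝ) := by
    rw [hw, ← Real.rpow_natCast, ← Real.rpow_mul hc]
    norm_num
  have h6 : w ^ 6 = c ^ 2 := by
    rw [← h3]; ring
  have := amgm_cube (al := a / Real.pi) (div_pos ha hpi) hw0
  rw [h3, h4, h6] at this
  have e1 : (1 / (a / Real.pi)) ^ 2 = (Real.pi / a) ^ 2 := by
    rw [one_div_div]
  have e2 : 432 / 343 * (a / Real.pi) * c = 432 / (343 * Real.pi) * a * c := by
    field_simp
  rw [e1, e2] at this
  exact this

/-- measure of the positivity set in one period -/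
noncomputable def posM (f : ℝ → ℝ) : ℝ :=
  ∫ s in (0 : ℝ)..(2 * Real.pi), (posSet f).indicator (fun _ => (1 : ℝ)) s

lemma posM_nonneg (f : ℝ → ℝ) : 0 ≤ posM f :=
  intervalIntegral.integral_nonneg (by positivity)
    (fun s _ => indicator_nonneg (fun _ _ => zero_le_one) s)

lemma periodic_indicator {f g : ℝ → ℝ} {T : ℝ} (hf : Function.Periodic f T)
    (hg : Function.Periodic g T) : Function.Periodic ((posSet f).indicator g) T := by
  intro s
  by_cases h : s ∈ posSet f
  · have h' : s + T ∈ posSet f := by
      simp only [posSet, mem_setOf_eq] at h ⊢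
      rwa [hf s]
    rw [indicator_of_mem h, indicator_of_mem h', hg s]
  · have h' : s + T ∉ posSet f := by
      simp only [posSet, mem_setOf_eq] at h ⊢
      rwa [hf s]
    rw [indicator_of_notMem h, indicator_of_notMem h']

lemma integral_shift {g : ℝ → ℝ} (hg : Function.Periodic g (2 * Real.pi)) (s₀ : ℝ) :
    ∫ s in s₀..(s₀ + 2 * Real.pi), g s = ∫ s in (0 : ℝ)..(2 * Real.pi), g s := by
  have := hg.intervalIntegral_add_eq s₀ 0
  rwa [zero_add] at this

lemma posM_pos {f : ℝ → ℝ} (hf : Continuous f) (hper : Function.Periodic f (2 * Real.pi))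
    {s₁ : ℝ} (h : 0 < f s₁) : 0 < posM f := by
  have hpi := Real.pi_pos
  have hPm := measurableSet_posSet hf
  have hint1 : ∀ u v : ℝ, IntervalIntegrable ((posSet f).indicator (fun _ => (1 : ℝ))) volume u v :=
    fun u v => intervalIntegrable_indicator hPm (_root_.intervalIntegrable_const)
  have hnh : posSet f ∈ 𝓝 s₁ := (isOpen_posSet hf).mem_nhds h
  obtain ⟨ε, hε, hball⟩ := Metric.mem_nhds_iff.1 hnh
  set d := min (ε / 2) Real.pi with hd
  have hd0 : 0 < d := lt_min (by linarith) hpi
  have hd1 : d < ε := lt_of_le_of_lt (min_le_left _ _) (by linarith)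
  have hd2 : d ≤ Real.pi := min_le_right _ _
  have h1 : posM f = ∫ s in s₁..(s₁ + 2 * Real.pi), (posSet f).indicator (fun _ => (1 : ℝ)) s := by
    rw [posM, integral_shift (periodic_indicator hper (fun _ => rfl))]
  have h2 : ∫ s in s₁..(s₁ + 2 * Real.pi), (posSet f).indicator (fun _ => (1 : ℝ)) s =
      (∫ s in s₁..(s₁ + d), (posSet f).indicator (fun _ => (1 : ℝ)) s) +
      ∫ s in (s₁ + d)..(s₁ + 2 * Real.pi), (posSet f).indicator (fun _ => (1 : ℝ)) s :=
    (intervalIntegral.integral_add_adjacent_intervals (hint1 _ _) (hint1 _ _)).symm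
  have h3 : ∫ s in s₁..(s₁ + d), (posSet f).indicator (fun _ => (1 : ℝ)) s =
      ∫ s in s₁..(s₁ + d), (1 : ℝ) := by
    apply intervalIntegral.integral_congr
    intro s hs
    rw [uIcc_of_le (by linarith)] at hs
    have : s ∈ posSet f := by
      apply hball
      rw [Metric.mem_ball, Real.dist_eq, abs_lt]
      constructor <;> linarith [hs.1, hs.2]
    simp only [indicator_of_mem this]
  have h4 : 0 ≤ ∫ s in (s₁ + d)..(s₁ + 2 * Real.pi), (posSet f).indicator (fun _ => (1 : ℝ)) s :=
    intervalIntegral.integral_nonneg (by linarith)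
      (fun s _ => indicator_nonneg (fun _ _ => zero_le_one) s)
  rw [h1, h2, h3]
  simp only [intervalIntegral.integral_const, smul_eq_mul, mul_one]
  linarith

/-- half of the scalar inequality: the positivity set -/
lemma half_ineq {f f' p p' : ℝ → ℝ} (hf : ∀ s, HasDerivAt f (f' s) s) (hf' : Continuous f')
    (hp : ∀ s, HasDerivAt p (p' s) s) (hp' : Continuous p')
    (hfper : Function.Periodic f (2 * Real.pi)) (hpper : Function.Periodic p (2 * Real.pi))
    (hf'per : Function.Periodic f' (2 * Real.pi)) (hp'per : Function.Periodic p' (2 * Real.pi))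
    {s₀ : ℝ} (h0 : f s₀ = 0) :
    ∫ s in (0 : ℝ)..(2 * Real.pi), p s ^ 2 * (108 / 49 * (max (f s) 0) ^ (4 / 3 : ℝ) -
      432 / (343 * Real.pi) * posM f * max (f s) 0) ≤
    ∫ s in (0 : ℝ)..(2 * Real.pi), (posSet f).indicator (fun v => (p' v * f v + p v * f' v) ^ 2) s
    := by
  have hpi := Real.pi_pos
  have hfc : Continuous f := continuous_iff_continuousAt.2 fun s => (hf s).continuousAt
  have hpc : Continuous p := continuous_iff_continuousAt.2 fun s => (hp s).continuousAt
  have hPm := measurableSet_posSet hfc
  have hmaxc : Continuous (fun s => max (f s) 0) := hfc.max continuous_const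
  have hrc : Continuous (fun s => (max (f s) 0) ^ (4 / 3 : ℝ)) :=
    hmaxc.rpow_const (fun s => Or.inr (by norm_num))
  rcases (posM_nonneg f).eq_or_lt with ha | ha
  · -- `posM f = 0`: then `f ≤ 0` everywhere
    have hle : ∀ s, f s ≤ 0 := by
      intro s
      by_contra hs
      push Not at hs
      have := posM_pos hfc hfper hs
      linarith
    have hz : ∀ s, max (f s) 0 = 0 := fun s => max_eq_right (hle s)
    have e1 : ∀ s, p s ^ 2 * (108 / 49 * (max (f s) 0) ^ (4 / 3 : ℝ) -
      432 / (343 * Real.pi) * posM f * max (f s) 0) = 0 := by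
      intro s
      rw [hz s, Real.zero_rpow (by norm_num)]
      ring
    simp only [e1]
    rw [intervalIntegral.integral_zero]
    apply intervalIntegral.integral_nonneg (by positivity)
    intro s _
    exact indicator_nonneg (fun _ _ => sq_nonneg _) s
  · -- `posM f > 0`
    have hx : ∀ s, HasDerivAt (fun v => p v * f v) (p' s * f s + p s * f' s) s :=
      fun s => (hp s).mul (hf s)
    have hx'c : Continuous (fun s => p' s * f s + p s * f' s) := by fun_prop
    have ha' : posM f = ∫ s in s₀..(s₀ + 2 * Real.pi),
        (posSet f).indicator (fun _ => (1 : ℝ)) s := by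
      rw [posM, integral_shift (periodic_indicator hfper (fun _ => rfl))]
    have hW := wirtinger_posSet (x := fun v => p v * f v)
      (x' := fun s => p' s * f s + p s * f' s) (f := f) (L := 2 * Real.pi) (s₀ := s₀)
      (a := posM f) (by positivity) hx hx'c hfc (fun s hs => by simp [hs]) h0
      (by rw [hfper s₀, h0]) ha' ha
    rw [integral_shift (periodic_indicator hfper (fun s => by
        simp only [hfper s, hpper s])),
      integral_shift (periodic_indicator hfper (fun s => by
        simp only [hfper s, hpper s, hf'per s, hp'per s]))] at hW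
    refine le_trans ?_ hW
    rw [← intervalIntegral.integral_const_mul]
    apply intervalIntegral.integral_mono_on (by positivity)
    · exact Continuous.intervalIntegrable (by fun_prop) _ _
    · apply IntervalIntegrable.const_mul
      apply intervalIntegrable_indicator hPm
      exact Continuous.intervalIntegrable (by fun_prop) _ _
    · intro s _
      by_cases hs : s ∈ posSet f
      · rw [indicator_of_mem hs]
        have hfs : 0 < f s := hs
        rw [max_eq_left hfs.le]
        have := amgm ha hfs.le
        have h2 : p s ^ 2 * (108 / 49 * f s ^ (4 / 3 : ℝ) - 432 / (343 * Real.pi) * posM f * f s) ≤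
            p s ^ 2 * ((Real.pi / posM f) ^ 2 * f s ^ 2) :=
          mul_le_mul_of_nonneg_left this (sq_nonneg _)
        refine h2.trans (le_of_eq ?_)
        ring
      · rw [indicator_of_notMem hs]
        have hfs : f s ≤ 0 := by
          simpa [posSet] using hs
        rw [max_eq_right hfs, Real.zero_rpow (by norm_num)]
        simp

/-- `∫ sign f` over a period is the difference of the measures of `{f > 0}` and `{f < 0}` -/
lemma integral_sign {f : ℝ → ℝ} (hf : Continuous f) :
    ∫ s in (0 : ℝ)..(2 * Real.pi), Real.sign (f s) = posM f - posM (fun s => - f s) := by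
  rw [posM, posM, ← intervalIntegral.integral_sub]
  · apply intervalIntegral.integral_congr
    intro s _
    simp only [indicator_apply, posSet, mem_setOf_eq]
    rcases lt_trichotomy (f s) 0 with h | h | h
    · rw [Real.sign_of_neg h, if_neg (by linarith), if_pos (by linarith)]; norm_num
    · rw [h]; simp
    · rw [Real.sign_of_pos h, if_pos h, if_neg (by linarith)]; norm_num
  · exact intervalIntegrable_indicator (measurableSet_posSet hf) _root_.intervalIntegrable_const
  · exact intervalIntegrable_indicator (measurableSet_posSet hf.neg)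
      _root_.intervalIntegrable_const

lemma posM_add_le {f : ℝ → ℝ} (hf : Continuous f) : posM f + posM (fun s => - f s) ≤ 2 * Real.pi := by
  have hpi := Real.pi_pos
  rw [posM, posM, ← intervalIntegral.integral_add]
  · have : ∫ s in (0 : ℝ)..(2 * Real.pi), (1 : ℝ) = 2 * Real.pi := by simp
    refine le_trans ?_ this.le
    apply intervalIntegral.integral_mono_on (by positivity)
    · apply IntervalIntegrable.add
      · exact intervalIntegrable_indicator (measurableSet_posSet hf) _root_.intervalIntegrable_const
      · exact intervalIntegrable_indicator (measurableSet_posSet hf.neg)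
          _root_.intervalIntegrable_const
    · exact _root_.intervalIntegrable_const
    · intro s _
      simp only [indicator_apply, posSet, mem_setOf_eq]
      rcases lt_trichotomy (f s) 0 with h | h | h
      · rw [if_neg (by linarith), if_pos (by linarith)]; norm_num
      · rw [h]; simp
      · rw [if_pos h, if_neg (by linarith)]; norm_num
  · exact intervalIntegrable_indicator (measurableSet_posSet hf) _root_.intervalIntegrable_const
  · exact intervalIntegrable_indicator (measurableSet_posSet hf.neg)
      _root_.intervalIntegrable_const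

/-- **The scalar inequality** -/
theorem scalar_ineq {f f' p p' : ℝ → ℝ} (hf : ∀ s, HasDerivAt f (f' s) s) (hf' : Continuous f')
    (hp : ∀ s, HasDerivAt p (p' s) s) (hp' : Continuous p')
    (hfper : Function.Periodic f (2 * Real.pi)) (hpper : Function.Periodic p (2 * Real.pi))
    (hf'per : Function.Periodic f' (2 * Real.pi)) (hp'per : Function.Periodic p' (2 * Real.pi))
    {s₀ : ℝ} (h0 : f s₀ = 0) :
    ∫ s in (0 : ℝ)..(2 * Real.pi), (p s ^ 2 * (108 / 49 * |f s| ^ (4 / 3 : ℝ) -
      432 / 343 * |f s| - 216 / (343 * Real.pi) *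
        (∫ t in (0 : ℝ)..(2 * Real.pi), Real.sign (f t)) * f s)) ≤
    ∫ s in (0 : ℝ)..(2 * Real.pi), (p' s * f s + p s * f' s) ^ 2 := by
  have hpi := Real.pi_pos
  have hfc : Continuous f := continuous_iff_continuousAt.2 fun s => (hf s).continuousAt
  have hpc : Continuous p := continuous_iff_continuousAt.2 fun s => (hp s).continuousAt
  have H1 := half_ineq hf hf' hp hp' hfper hpper hf'per hp'per h0
  have H2 := half_ineq (f := fun s => - f s) (f' := fun s => - f' s) (p := p) (p' := p')
    (fun s => (hf s).neg) hf'.neg hp hp' (fun s => by simp only [hfper s]) hpper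
    (fun s => by simp only [hf'per s]) hp'per (s₀ := s₀) (by simp [h0])
  set Ap := posM f with hAp
  set An := posM (fun s => - f s) with hAn
  have hsum : Ap + An ≤ 2 * Real.pi := posM_add_le hfc
  rw [integral_sign hfc]
  have hI1 : IntervalIntegrable ((posSet f).indicator (fun v => (p' v * f v + p v * f' v) ^ 2))
      volume 0 (2 * Real.pi) :=
    intervalIntegrable_indicator (measurableSet_posSet hfc)
      (Continuous.intervalIntegrable (by fun_prop) _ _)
  have hI2 : IntervalIntegrable ((posSet fun s => - f s).indicator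
      (fun v => (p' v * - f v + p v * - f' v) ^ 2)) volume 0 (2 * Real.pi) :=
    intervalIntegrable_indicator (measurableSet_posSet hfc.neg)
      (Continuous.intervalIntegrable (by fun_prop) _ _)
  have hmaxc : Continuous (fun s => max (f s) 0) := hfc.max continuous_const
  have hrc : Continuous (fun s => (max (f s) 0) ^ (4 / 3 : ℝ)) :=
    hmaxc.rpow_const (fun s => Or.inr (by norm_num))
  have hmaxc' : Continuous (fun s => max (- f s) 0) := hfc.neg.max continuous_const
  have hrc' : Continuous (fun s => (max (- f s) 0) ^ (4 / 3 : ℝ)) :=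
    hmaxc'.rpow_const (fun s => Or.inr (by norm_num))
  have hrc'' : Continuous (fun s => |f s| ^ (4 / 3 : ℝ)) :=
    hfc.abs.rpow_const (fun s => Or.inr (by norm_num))
  have H3 : (∫ s in (0 : ℝ)..(2 * Real.pi),
      (posSet f).indicator (fun v => (p' v * f v + p v * f' v) ^ 2) s) +
      (∫ s in (0 : ℝ)..(2 * Real.pi),
      (posSet fun s => - f s).indicator (fun v => (p' v * - f v + p v * - f' v) ^ 2) s) ≤
      ∫ s in (0 : ℝ)..(2 * Real.pi), (p' s * f s + p s * f' s) ^ 2 := by
    rw [← intervalIntegral.integral_add hI1 hI2]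
    apply intervalIntegral.integral_mono_on (by positivity) (hI1.add hI2)
    · exact Continuous.intervalIntegrable (by fun_prop) _ _
    · intro s _
      simp only [indicator_apply, posSet, mem_setOf_eq]
      rcases lt_trichotomy (f s) 0 with h | h | h
      · rw [if_neg (by linarith), if_pos (by linarith)]
        apply le_of_eq; ring
      · rw [h]; simp only [lt_self_iff_false, if_false, neg_zero]; nlinarith [sq_nonneg (p' s * 0 + p s * f' s)]
      · rw [if_pos h, if_neg (by linarith)]; apply le_of_eq; ring
  have H4 : ∫ s in (0 : ℝ)..(2 * Real.pi), (p s ^ 2 * (108 / 49 * |f s| ^ (4 / 3 : ℝ) -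
      432 / 343 * |f s| - 216 / (343 * Real.pi) * (Ap - An) * f s)) ≤
      (∫ s in (0 : ℝ)..(2 * Real.pi), p s ^ 2 * (108 / 49 * (max (f s) 0) ^ (4 / 3 : ℝ) -
      432 / (343 * Real.pi) * Ap * max (f s) 0)) +
      ∫ s in (0 : ℝ)..(2 * Real.pi), p s ^ 2 * (108 / 49 * (max (- f s) 0) ^ (4 / 3 : ℝ) -
      432 / (343 * Real.pi) * An * max (- f s) 0) := by
    rw [← intervalIntegral.integral_add]
    · apply intervalIntegral.integral_mono_on (by positivity)
      · exact Continuous.intervalIntegrable (by fun_prop) _ _
      · exact (Continuous.intervalIntegrable (by fun_prop) _ _).add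
          (Continuous.intervalIntegrable (by fun_prop) _ _)
      · intro s _
        rw [← mul_add]
        apply mul_le_mul_of_nonneg_left _ (sq_nonneg _)
        have hq : (432 : ℝ) / 343 = 432 / (343 * Real.pi) * Real.pi := by
          field_simp
        have hq2 : (216 : ℝ) / (343 * Real.pi) = 432 / (343 * Real.pi) / 2 := by
          field_simp
          norm_num
        have hcpos : 0 < 432 / (343 * Real.pi) := by positivity
        rw [hq, hq2]
        set c := 432 / (343 * Real.pi) with hc
        rcases le_total 0 (f s) with h | h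
        · rw [abs_of_nonneg h, max_eq_left h, max_eq_right (by linarith : - f s ≤ 0),
            Real.zero_rpow (by norm_num)]
          have h5 : 0 ≤ c * f s := mul_nonneg hcpos.le h
          nlinarith
        · rw [abs_of_nonpos h, max_eq_right h, max_eq_left (by linarith : 0 ≤ - f s),
            Real.zero_rpow (by norm_num)]
          have h5 : 0 ≤ c * (- f s) := mul_nonneg hcpos.le (by linarith)
          nlinarith
    · exact Continuous.intervalIntegrable (by fun_prop) _ _
    · exact Continuous.intervalIntegrable (by fun_prop) _ _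
  linarith

end Pool.Agent.Lib.Ovals46
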