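import Mathlib

/-!
# Wirtinger inequality on the positivity set of a function

If `x` is `C¹` on `[s₀, s₀ + L]` and vanishes wherever `f` vanishes, `f s₀ = f (s₀ + L) = 0`
and the set `P = {0 < f}` has measure `a > 0` in `[s₀, s₀ + L]`, then
`(π / a)² ∫_P x² ≤ ∫_P x'²`.
-/

set_option autoImplicit false

open MeasureTheory Set Filter Topology intervalIntegral

namespace Pool.Agent.Lib.Ovals46

/-- the positivity set -/
def posSet (f : ℝ → ℝ) : Set ℝ := {s | 0 < f s}

lemma isOpen_posSet {f : ℝ → ℝ} (hf : Continuous f) : IsOpen (posSet f) :=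
  isOpen_lt continuous_const hf

lemma measurableSet_posSet {f : ℝ → ℝ} (hf : Continuous f) : MeasurableSet (posSet f) :=
  (isOpen_posSet hf).measurableSet

/-- indicator of a measurable set times an interval integrable function -/
lemma intervalIntegrable_indicator {P : Set ℝ} (hP : MeasurableSet P) {g : ℝ → ℝ} {a b : ℝ}
    (hg : IntervalIntegrable g volume a b) :
    IntervalIntegrable (P.indicator g) volume a b :=
  ⟨hg.1.indicator hP, hg.2.indicator hP⟩

/-- the derivative of `G = 1_P x² t` at the points where `f` vanishes -/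
lemma hasDerivAt_zero_of_zero {x t f : ℝ → ℝ} {s x' : ℝ} (hx : HasDerivAt x x' s)
    (hxs : x s = 0) (ht : ContinuousAt t s) (hfs : f s = 0) :
    HasDerivAt (fun u => (posSet f).indicator (fun v => x v ^ 2 * t v) u) 0 s := by
  have hO : (fun u => x u) =O[𝓝 s] (fun u => u - s) := by
    have := hx.isBigO_sub
    simpa [hxs] using this
  have htO : t =O[𝓝 s] (fun _ => (1 : ℝ)) := ht.isBigO_one ℝ
  have h2 : (fun u => x u ^ 2 * t u) =o[𝓝 s] (fun u => u - s) := by
    have h3 : (fun u => x u ^ 2 * t u) =O[𝓝 s] (fun u => (u - s) ^ 2 * 1) :=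
      (hO.pow 2).mul htO
    have h4 : (fun u : ℝ => (u - s) ^ 2 * 1) =o[𝓝 s] (fun u => u - s) := by
      have h5 : (fun u : ℝ => (u - s)) =o[𝓝 s] (fun _ => (1 : ℝ)) := by
        rw [Asymptotics.isLittleO_one_iff]
        have : Tendsto (fun u : ℝ => u - s) (𝓝 s) (𝓝 (s - s)) :=
          (continuous_id.sub continuous_const).tendsto s
        simpa using this
      have h6 := h5.mul_isBigO (Asymptotics.isBigO_refl (fun u : ℝ => u - s) (𝓝 s))
      refine (h6.congr ?_ ?_)
      · intro u; ring
      · intro u; ring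
    exact h3.trans_isLittleO h4
  have h3 : (fun u => (posSet f).indicator (fun v => x v ^ 2 * t v) u) =o[𝓝 s]
      (fun u => u - s) := by
    refine Asymptotics.IsBigO.trans_isLittleO ?_ h2
    refine Asymptotics.IsBigO.of_bound 1 (Eventually.of_forall fun u => ?_)
    rw [one_mul]
    by_cases hu : u ∈ posSet f
    · rw [indicator_of_mem hu]
    · rw [indicator_of_notMem hu]; simp only [norm_zero]; positivity
  have h4 : (posSet f).indicator (fun v => x v ^ 2 * t v) s = 0 := by
    refine indicator_of_notMem ?_ _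
    simp [posSet, hfs]
  rw [hasDerivAt_iff_isLittleO]
  refine h3.congr_left ?_
  intro u
  simp [h4]

lemma hasDerivAt_zero_of_neg {g f : ℝ → ℝ} {s : ℝ} (hf : Continuous f) (hfs : f s < 0) :
    HasDerivAt (fun u => (posSet f).indicator g u) 0 s := by
  have h : (fun _ : ℝ => (0 : ℝ)) =ᶠ[𝓝 s] (fun u => (posSet f).indicator g u) := by
    filter_upwards [(isOpen_lt hf continuous_const).mem_nhds hfs] with u hu
    rw [indicator_of_notMem]
    simp only [posSet, mem_setOf_eq, not_lt]
    exact le_of_lt hu
  exact (hasDerivAt_const s (0 : ℝ)).congr_of_eventuallyEq h.symm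

theorem wirtinger_aux {x x' f : ℝ → ℝ} {L s₀ a k : ℝ} (hL : 0 ≤ L)
    (hx : ∀ s, HasDerivAt x (x' s) s) (hx' : Continuous x') (hf : Continuous f)
    (hzero : ∀ s, f s = 0 → x s = 0) (h0 : f s₀ = 0) (h1 : f (s₀ + L) = 0)
    (ha : a = ∫ s in s₀..(s₀ + L), (posSet f).indicator (fun _ => (1 : ℝ)) s)
    (hapos : 0 < a) (hk : 0 < k) (hka : k < Real.pi / a) :
    k ^ 2 * ∫ s in s₀..(s₀ + L), (posSet f).indicator (fun v => x v ^ 2) s ≤
      ∫ s in s₀..(s₀ + L), (posSet f).indicator (fun v => x' v ^ 2) s := by
  have hPm : MeasurableSet (posSet f) := measurableSet_posSet hf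
  have hxc : Continuous x := continuous_iff_continuousAt.2 fun s => (hx s).continuousAt
  set A : ℝ → ℝ := fun u => ∫ s in s₀..u, (posSet f).indicator (fun _ => (1 : ℝ)) s with hA
  have hint1 : ∀ u v : ℝ, IntervalIntegrable ((posSet f).indicator (fun _ => (1 : ℝ))) volume u v :=
    fun u v => intervalIntegrable_indicator hPm (_root_.intervalIntegrable_const)
  have hAc : Continuous A := intervalIntegral.continuous_primitive (fun u v => hint1 u v) s₀
  have hind_nonneg : ∀ s, 0 ≤ (posSet f).indicator (fun _ => (1 : ℝ)) s := fun s =>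
    indicator_nonneg (fun _ _ => zero_le_one) s
  have hA0 : ∀ u, s₀ ≤ u → 0 ≤ A u := fun u hu =>
    intervalIntegral.integral_nonneg hu (fun s _ => hind_nonneg s)
  have hA1 : ∀ u, u ≤ s₀ + L → A u ≤ a := by
    intro u hu
    have : A (s₀ + L) - A u = ∫ s in u..(s₀ + L), (posSet f).indicator (fun _ => (1 : ℝ)) s :=
      intervalIntegral.integral_interval_sub_left (hint1 _ _) (hint1 _ _)
    have h2 : 0 ≤ ∫ s in u..(s₀ + L), (posSet f).indicator (fun _ => (1 : ℝ)) s :=
      intervalIntegral.integral_nonneg hu (fun s _ => hind_nonneg s)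
    have h3 : A (s₀ + L) = a := by rw [ha]
    linarith
  have hkapi : k * a < Real.pi := by
    rwa [lt_div_iff₀ hapos] at hka
  have hcos : ∀ s ∈ Icc s₀ (s₀ + L), 0 < Real.cos (k * (A s - a / 2)) := by
    intro s hs
    have h1 := hA0 s hs.1
    have h2 := hA1 s hs.2
    apply Real.cos_pos_of_mem_Ioo
    constructor
    · nlinarith
    · nlinarith
  set t : ℝ → ℝ := fun s => Real.tan (k * (A s - a / 2)) with ht
  have htcat : ∀ s ∈ Icc s₀ (s₀ + L), ContinuousAt t s := by
    intro s hs
    have : ContinuousAt (fun u => k * (A u - a / 2)) s := by fun_prop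
    exact ContinuousAt.comp (g := Real.tan) (f := fun u => k * (A u - a / 2))
      (Real.continuousAt_tan.2 (hcos s hs).ne') this
  have htc : ContinuousOn t (Icc s₀ (s₀ + L)) := fun s hs => (htcat s hs).continuousWithinAt
  -- the function G and its derivative
  have hderiv : ∀ s ∈ uIcc s₀ (s₀ + L),
      HasDerivAt (fun u => (posSet f).indicator (fun v => x v ^ 2 * t v) u)
        ((posSet f).indicator (fun v => 2 * x v * x' v * t v + k * (1 + t v ^ 2) * x v ^ 2) s) s := by
    intro s hs
    rw [uIcc_of_le (by linarith)] at hs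
    rcases lt_trichotomy (f s) 0 with hfs | hfs | hfs
    · have hnot : s ∉ posSet f := by simp only [posSet, mem_setOf_eq, not_lt]; exact hfs.le
      rw [indicator_of_notMem hnot]
      exact hasDerivAt_zero_of_neg hf hfs
    · have hnot : s ∉ posSet f := by simp only [posSet, mem_setOf_eq, not_lt]; exact hfs.le
      rw [indicator_of_notMem hnot]
      exact hasDerivAt_zero_of_zero (hx s) (hzero s hfs) (htcat s hs) hfs
    · have hmem : s ∈ posSet f := hfs
      rw [indicator_of_mem hmem]
      have hnhds : posSet f ∈ 𝓝 s := (isOpen_posSet hf).mem_nhds hmem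
      have hAd : HasDerivAt A 1 s := by
        have hcat : ContinuousAt ((posSet f).indicator (fun _ => (1 : ℝ))) s := by
          have : (fun _ : ℝ => (1 : ℝ)) =ᶠ[𝓝 s] (posSet f).indicator (fun _ => (1 : ℝ)) := by
            filter_upwards [hnhds] with u hu
            rw [indicator_of_mem hu]
          exact continuousAt_const.congr this
        have hmeas : StronglyMeasurableAtFilter ((posSet f).indicator (fun _ => (1 : ℝ))) (𝓝 s)
            volume :=
          (measurable_const.indicator hPm).stronglyMeasurable.stronglyMeasurableAtFilter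
        have := intervalIntegral.integral_hasDerivAt_right (hint1 s₀ s) hmeas hcat
        rwa [indicator_of_mem hmem] at this
      have htd : HasDerivAt t (k * (1 + t s ^ 2)) s := by
        have h1 : HasDerivAt (fun u => k * (A u - a / 2)) (k * 1) s :=
          (hAd.sub_const (a / 2)).const_mul k
        have h2 := (Real.hasDerivAt_tan (hcos s hs).ne').comp s h1
        have h3 : 1 / Real.cos (k * (A s - a / 2)) ^ 2 * (k * 1) = k * (1 + t s ^ 2) := by
          have hc := (hcos s hs).ne'
          have h4 := Real.inv_one_add_tan_sq hc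
          have h5 : (1 + t s ^ 2) = 1 / Real.cos (k * (A s - a / 2)) ^ 2 := by
            rw [one_div, ← h4, inv_inv]
          rw [h5]
          ring
        rw [h3] at h2
        exact h2
      have hG : HasDerivAt (fun v => x v ^ 2 * t v)
          (2 * x s * x' s * t s + k * (1 + t s ^ 2) * x s ^ 2) s := by
        have h1 := ((hx s).pow 2).mul htd
        refine h1.congr_deriv ?_
        simp only [Pi.pow_apply]
        push_cast
        ring
      refine hG.congr_of_eventuallyEq ?_
      filter_upwards [hnhds] with u hu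
      rw [indicator_of_mem hu]
  have hGint : IntervalIntegrable ((posSet f).indicator
      (fun v => 2 * x v * x' v * t v + k * (1 + t v ^ 2) * x v ^ 2)) volume s₀ (s₀ + L) := by
    apply intervalIntegrable_indicator hPm
    apply ContinuousOn.intervalIntegrable_of_Icc (by linarith)
    fun_prop
  have hFTC := intervalIntegral.integral_eq_sub_of_hasDerivAt hderiv hGint
  have hend : (posSet f).indicator (fun v => x v ^ 2 * t v) (s₀ + L) = 0 := by
    refine indicator_of_notMem ?_ _
    simp [posSet, h1]
  have hst : (posSet f).indicator (fun v => x v ^ 2 * t v) s₀ = 0 := by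
    refine indicator_of_notMem ?_ _
    simp [posSet, h0]
  rw [hend, hst, sub_zero] at hFTC
  have hI1 : IntervalIntegrable ((posSet f).indicator (fun v => x v ^ 2)) volume s₀ (s₀ + L) := by
    apply intervalIntegrable_indicator hPm
    exact (Continuous.intervalIntegrable (by fun_prop) _ _)
  have hI2 : IntervalIntegrable ((posSet f).indicator (fun v => x' v ^ 2)) volume s₀ (s₀ + L) := by
    apply intervalIntegrable_indicator hPm
    exact (Continuous.intervalIntegrable (by fun_prop) _ _)
  have hnn : 0 ≤ ∫ s in s₀..(s₀ + L), ((posSet f).indicator (fun v => x' v ^ 2) s -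
      k ^ 2 * (posSet f).indicator (fun v => x v ^ 2) s +
      k * (posSet f).indicator
      (fun v => 2 * x v * x' v * t v + k * (1 + t v ^ 2) * x v ^ 2) s) := by
    apply intervalIntegral.integral_nonneg (by linarith)
    intro s _
    by_cases hs : s ∈ posSet f
    · simp only [indicator_of_mem hs]
      nlinarith [sq_nonneg (x' s + k * t s * x s)]
    · simp only [indicator_of_notMem hs]
      simp
  rw [intervalIntegral.integral_add (hI2.sub (hI1.const_mul _)) (hGint.const_mul _),
    intervalIntegral.integral_sub hI2 (hI1.const_mul _), intervalIntegral.integral_const_mul,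
    intervalIntegral.integral_const_mul, hFTC] at hnn
  linarith

/-- **Wirtinger inequality on the positivity set** -/
theorem wirtinger_posSet {x x' f : ℝ → ℝ} {L s₀ a : ℝ} (hL : 0 ≤ L)
    (hx : ∀ s, HasDerivAt x (x' s) s) (hx' : Continuous x') (hf : Continuous f)
    (hzero : ∀ s, f s = 0 → x s = 0) (h0 : f s₀ = 0) (h1 : f (s₀ + L) = 0)
    (ha : a = ∫ s in s₀..(s₀ + L), (posSet f).indicator (fun _ => (1 : ℝ)) s)
    (hapos : 0 < a) :
    (Real.pi / a) ^ 2 * ∫ s in s₀..(s₀ + L), (posSet f).indicator (fun v => x v ^ 2) s ≤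
      ∫ s in s₀..(s₀ + L), (posSet f).indicator (fun v => x' v ^ 2) s := by
  set X := ∫ s in s₀..(s₀ + L), (posSet f).indicator (fun v => x v ^ 2) s with hX
  have hpos : 0 < Real.pi / a := div_pos Real.pi_pos hapos
  have hlim : Tendsto (fun k : ℝ => k ^ 2 * X) (𝓝[<] (Real.pi / a)) (𝓝 ((Real.pi / a) ^ 2 * X)) := by
    have : Continuous (fun k : ℝ => k ^ 2 * X) := by fun_prop
    exact (this.tendsto _).mono_left nhdsWithin_le_nhds
  refine le_of_tendsto hlim ?_
  filter_upwards [Ioo_mem_nhdsLT hpos] with k hk
  exact wirtinger_aux hL hx hx' hf hzero h0 h1 ha hapos hk.1 hk.2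

end Pool.Agent.Lib.Ovals46
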