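import Mathlib

/-!
# Averages over the unit sphere of `ℝ³`

For a unit vector `v`, `∫_{S²} |⟪ω, v⟫|^p = 4 π / (p + 1)` and
`∫_{S²} sign ⟪ω, v⟫ ⟪ω, w⟫ = 2 π ⟪v, w⟫`.
-/

set_option autoImplicit false

open MeasureTheory Set Filter Topology
open scoped RealInnerProductSpace

namespace Pool.Agent.Lib.Ovals46

/-- three-dimensional Euclidean space -/
abbrev E3 := EuclideanSpace ℝ (Fin 3)

/-- the surface measure of the unit sphere -/
noncomputable abbrev sig : Measure (Metric.sphere (0 : E3) 1) := (volume : Measure E3).toSphere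

lemma finrank_E3 : Module.finrank ℝ E3 = 3 := by simp

/-- polar coordinates for homogeneous functions -/
theorem polar_homog (f : E3 → ℝ) (p : ℝ)
    (hf : ∀ (r : ℝ), 0 < r → ∀ x, f (r • x) = r ^ p * f x) (g : ℝ → ℝ) :
    ∫ x : E3, f x * g ‖x‖ =
      (∫ ω : Metric.sphere (0 : E3) 1, f ω ∂sig) * ∫ r in Ioi (0 : ℝ), r ^ 2 * (r ^ p * g r) := by
  have hint : ∫ x : ({(0)}ᶜ : Set E3), f x * g (‖x.1‖) ∂((volume : Measure E3).comap (↑)) =
      ∫ z : Metric.sphere (0 : E3) 1 × Ioi (0 : ℝ), f z.1 * ((z.2 : ℝ) ^ p * g z.2)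
        ∂(sig.prod (.volumeIoiPow (Module.finrank ℝ E3 - 1))) := by
    have h := (volume : Measure E3).measurePreserving_homeomorphUnitSphereProd.integral_comp
      (Homeomorph.measurableEmbedding _)
      (fun z : Metric.sphere (0 : E3) 1 × Ioi (0 : ℝ) => f z.1 * ((z.2 : ℝ) ^ p * g z.2))
    rw [← h]
    apply integral_congr_ae
    refine Eventually.of_forall fun x => ?_
    have hx : (x : E3) ≠ 0 := x.2
    have hx' : 0 < ‖(x : E3)‖ := norm_pos_iff.2 hx
    simp only [homeomorphUnitSphereProd_apply_fst_coe, homeomorphUnitSphereProd_apply_snd_coe]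
    have h2 : f (x : E3) = ‖(x : E3)‖ ^ p * f (‖(x : E3)‖⁻¹ • (x : E3)) := by
      rw [← hf _ hx', smul_smul, mul_inv_cancel₀ hx'.ne', one_smul]
    rw [h2]
    ring
  calc ∫ x : E3, f x * g ‖x‖
      = ∫ x : ({(0)}ᶜ : Set E3), f x * g (‖x.1‖) ∂((volume : Measure E3).comap (↑)) := by
        rw [integral_subtype_comap (measurableSet_singleton _).compl fun x : E3 ↦ f x * g (‖x‖),
          restrict_compl_singleton]
    _ = (∫ ω : Metric.sphere (0 : E3) 1, f ω ∂sig) *
        ∫ r : Ioi (0 : ℝ), ((r : ℝ) ^ p * g r) ∂.volumeIoiPow (Module.finrank ℝ E3 - 1) := by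
        rw [hint]
        exact integral_prod_mul (fun ω : Metric.sphere (0 : E3) 1 => f ω)
          (fun r : Ioi (0 : ℝ) => (r : ℝ) ^ p * g r)
    _ = _ := by
        congr 1
        simp only [Measure.volumeIoiPow, ENNReal.ofReal]
        rw [integral_withDensity_eq_integral_smul,
          integral_subtype_comap measurableSet_Ioi
            fun a ↦ Real.toNNReal (a ^ (Module.finrank ℝ E3 - 1)) • (a ^ p * g a),
          setIntegral_congr_fun measurableSet_Ioi fun x hx ↦ ?_]
        · rw [NNReal.smul_def, Real.coe_toNNReal _ (pow_nonneg hx.out.le _), finrank_E3]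
          simp
        · exact (measurable_subtype_coe.pow_const _).real_toNNReal

/-- the radial integral -/
lemma radial_integral {p : ℝ} (hp : 0 < p) :
    ∫ r in Ioi (0 : ℝ), r ^ 2 * (r ^ p * Real.exp (- r ^ 2)) =
      1 / 2 * ((p + 1) / 2 * Real.Gamma ((p + 1) / 2)) := by
  have h1 := integral_rpow_mul_exp_neg_rpow (p := 2) (q := p + 2) (by norm_num) (by linarith)
  have h2 : (p + 2 + 1) / 2 = (p + 1) / 2 + 1 := by ring
  rw [h2, Real.Gamma_add_one (by positivity)] at h1
  rw [← h1]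
  apply setIntegral_congr_fun measurableSet_Ioi
  intro x hx
  have hx0 : (0 : ℝ) < x := hx
  simp only
  rw [Real.rpow_add hx0, Real.rpow_two]
  ring

lemma line_integral {p : ℝ} (hp : 0 < p) :
    ∫ t : ℝ, |t| ^ p * Real.exp (- t ^ 2) = Real.Gamma ((p + 1) / 2) := by
  have h1 := integral_rpow_mul_exp_neg_rpow (p := 2) (q := p) (by norm_num) (by linarith)
  have h2 := integral_comp_abs (f := fun t : ℝ => t ^ p * Real.exp (- t ^ 2))
  simp only [sq_abs] at h2
  rw [h2]
  have h3 : ∫ x in Ioi (0 : ℝ), x ^ p * Real.exp (- x ^ 2) =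
      ∫ x in Ioi (0 : ℝ), x ^ p * Real.exp (- x ^ (2 : ℝ)) := by
    apply setIntegral_congr_fun measurableSet_Ioi
    intro x hx
    simp only [Real.rpow_two]
  rw [h3, h1]
  ring

lemma gauss_integral : ∫ t : ℝ, Real.exp (- t ^ 2) = √Real.pi := by
  have := integral_gaussian 1
  simpa using this

/-- an orthonormal basis starting with the unit vector `v` -/
lemma exists_basis {v : E3} (hv : ‖v‖ = 1) : ∃ b : OrthonormalBasis (Fin 3) ℝ E3, b 0 = v := by
  have h : Orthonormal ℝ (({0} : Set (Fin 3)).domRestrict (fun _ : Fin 3 => v)) := by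
    constructor
    · intro i; simpa using hv
    · intro i j hij
      exfalso
      apply hij
      apply Subtype.ext
      have h1 := i.2
      have h2 := j.2
      simp only [mem_singleton_iff] at h1 h2
      rw [h1, h2]
  obtain ⟨b, hb⟩ := h.exists_orthonormalBasis_extension_of_card_eq (by simp)
  exact ⟨b, hb 0 (by simp)⟩

/-- Gaussian integral of a function of one coordinate -/
lemma gauss_space (F : ℝ → ℝ) {v : E3} (hv : ‖v‖ = 1) :
    ∫ x : E3, F ⟪x, v⟫ * Real.exp (- ‖x‖ ^ 2) =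
      (∫ t : ℝ, F t * Real.exp (- t ^ 2)) * Real.pi := by
  obtain ⟨b, hb⟩ := exists_basis hv
  have h1 : ∫ x : E3, F ⟪x, v⟫ * Real.exp (- ‖x‖ ^ 2) =
      ∫ y : E3, F (y 0) * Real.exp (- ‖y‖ ^ 2) := by
    have h := b.measurePreserving_repr.integral_comp (b.repr.toHomeomorph.measurableEmbedding)
      (fun y : E3 => F (y 0) * Real.exp (- ‖y‖ ^ 2))
    rw [← h]
    apply integral_congr_ae
    refine Eventually.of_forall fun x => ?_
    have e1 : (b.repr x) 0 = ⟪x, v⟫ := by
      rw [b.repr_apply_apply, hb, real_inner_comm]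
    simp only [LinearIsometryEquiv.norm_map, e1]
  rw [h1]
  have h2 : ∫ y : E3, F (y 0) * Real.exp (- ‖y‖ ^ 2) =
      ∫ y : Fin 3 → ℝ, F (y 0) * Real.exp (- ∑ i, y i ^ 2) := by
    rw [← (PiLp.volume_preserving_ofLp (Fin 3)).integral_comp
      (MeasurableEquiv.toLp 2 (Fin 3 → ℝ)).symm.measurableEmbedding]
    apply integral_congr_ae
    refine Eventually.of_forall fun y => ?_
    simp only [EuclideanSpace.real_norm_sq_eq]
  rw [h2]
  have h3 : ∀ y : Fin 3 → ℝ, F (y 0) * Real.exp (- ∑ i, y i ^ 2) =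
      ∏ i : Fin 3, (fun j : Fin 3 => if j = 0 then (fun t : ℝ => F t * Real.exp (- t ^ 2))
        else (fun t : ℝ => Real.exp (- t ^ 2))) i (y i) := by
    intro y
    rw [Fin.prod_univ_three, Fin.sum_univ_three]
    simp only [Fin.isValue, if_true, one_ne_zero, if_false, Fin.reduceEq]
    rw [neg_add, neg_add, Real.exp_add, Real.exp_add]
    ring
  simp only [h3]
  rw [integral_fintype_prod_volume_eq_prod, Fin.prod_univ_three]
  simp only [Fin.isValue, if_true, one_ne_zero, if_false, Fin.reduceEq]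
  rw [gauss_integral, mul_assoc, Real.mul_self_sqrt Real.pi_pos.le]

/-- **absolute moments on the sphere** -/
theorem sphere_abs_moment {p : ℝ} (hp : 0 < p) {v : E3} (hv : ‖v‖ = 1) :
    ∫ ω : Metric.sphere (0 : E3) 1, |⟪(ω : E3), v⟫| ^ p ∂sig = 4 * Real.pi / (p + 1) := by
  have h1 := polar_homog (fun x => |⟪x, v⟫| ^ p) p (by
    intro r hr x
    rw [real_inner_smul_left, abs_mul, abs_of_pos hr,
      Real.mul_rpow hr.le (abs_nonneg _)]) (fun r => Real.exp (- r ^ 2))
  rw [gauss_space (fun t => |t| ^ p) hv, line_integral hp, radial_integral hp] at h1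
  have hG : 0 < Real.Gamma ((p + 1) / 2) := Real.Gamma_pos_of_pos (by positivity)
  have hp1 : 0 < p + 1 := by linarith
  set I := ∫ ω : Metric.sphere (0 : E3) 1, |⟪(ω : E3), v⟫| ^ p ∂sig with hI
  have h2 : Real.Gamma ((p + 1) / 2) * (Real.pi - I * ((p + 1) / 4)) = 0 := by
    linear_combination h1
  rcases mul_eq_zero.1 h2 with h3 | h3
  · exact absurd h3 hG.ne'
  · field_simp
    linarith

theorem sphere_sq {w : E3} :
    ∫ ω : Metric.sphere (0 : E3) 1, ⟪(ω : E3), w⟫ ^ 2 ∂sig = 4 * Real.pi / 3 * ‖w‖ ^ 2 := by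
  by_cases hw : w = 0
  · simp [hw]
  · have hn : 0 < ‖w‖ := norm_pos_iff.2 hw
    have h1 := sphere_abs_moment (p := 2) (by norm_num) (v := ‖w‖⁻¹ • w) (by
      rw [norm_smul, norm_inv, norm_norm, inv_mul_cancel₀ hn.ne'])
    have h2 : ∀ ω : Metric.sphere (0 : E3) 1, ⟪(ω : E3), w⟫ ^ 2 =
        ‖w‖ ^ 2 * |⟪(ω : E3), ‖w‖⁻¹ • w⟫| ^ (2 : ℝ) := by
      intro ω
      rw [Real.rpow_two, sq_abs, real_inner_smul_right]
      field_simp
    simp only [h2]
    rw [integral_const_mul, h1]
    ring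

theorem sphere_sign {v w : E3} (hv : ‖v‖ = 1) :
    ∫ ω : Metric.sphere (0 : E3) 1, Real.sign ⟪(ω : E3), v⟫ * ⟪(ω : E3), w⟫ ∂sig =
      2 * Real.pi * ⟪v, w⟫ := by
  -- orthogonal part
  set w' : E3 := w - ⟪v, w⟫ • v with hw'
  have horth : ⟪v, w'⟫ = 0 := by
    rw [hw', inner_sub_right, real_inner_smul_right, real_inner_self_eq_norm_sq, hv]
    ring
  have hzero : ∫ ω : Metric.sphere (0 : E3) 1, Real.sign ⟪(ω : E3), v⟫ * ⟪(ω : E3), w'⟫ ∂sig
      = 0 := by
    have h1 := polar_homog (fun x => Real.sign ⟪x, v⟫ * ⟪x, w'⟫) 1 (by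
      intro r hr x
      rw [real_inner_smul_left, real_inner_smul_left, Real.rpow_one]
      have : Real.sign (r * ⟪x, v⟫) = Real.sign ⟪x, v⟫ := by
        rcases lt_trichotomy ⟪x, v⟫ 0 with h | h | h
        · rw [Real.sign_of_neg h, Real.sign_of_neg (mul_neg_of_pos_of_neg hr h)]
        · rw [h, mul_zero]
        · rw [Real.sign_of_pos h, Real.sign_of_pos (mul_pos hr h)]
      rw [this]
      ring) (fun r => Real.exp (- r ^ 2))
    rw [radial_integral one_pos] at h1
    have hG : 0 < Real.Gamma ((1 + 1) / 2) := Real.Gamma_pos_of_pos (by norm_num)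
    set R : E3 ≃ₗᵢ[ℝ] E3 := (Submodule.span ℝ {v}).reflection with hR
    have hRv : R v = v := by
      rw [hR]
      exact Submodule.reflection_mem_subspace_eq_self (Submodule.mem_span_singleton_self v)
    have hRw : R w' = - w' := by
      rw [hR]
      apply Submodule.reflection_mem_subspace_orthogonalComplement_eq_neg
      rw [Submodule.mem_orthogonal_singleton_iff_inner_right]
      exact horth
    have h2 : ∫ x : E3, Real.sign ⟪x, v⟫ * ⟪x, w'⟫ * Real.exp (- ‖x‖ ^ 2) =
        - ∫ x : E3, Real.sign ⟪x, v⟫ * ⟪x, w'⟫ * Real.exp (- ‖x‖ ^ 2) := by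
      conv_lhs =>
        rw [← R.measurePreserving.integral_comp (R.toHomeomorph.measurableEmbedding)]
      rw [← integral_neg]
      apply integral_congr_ae
      refine Eventually.of_forall fun x => ?_
      simp only [LinearIsometryEquiv.norm_map]
      have e1 : ⟪R x, v⟫ = ⟪x, v⟫ := by
        conv_lhs => rw [← hRv]
        exact R.inner_map_map x v
      have e2 : ⟪R x, w'⟫ = - ⟪x, w'⟫ := by
        have : w' = - R w' := by rw [hRw, neg_neg]
        conv_lhs => rw [this]
        rw [inner_neg_right, R.inner_map_map]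
      rw [e1, e2]
      ring
    have h3 : ∫ x : E3, Real.sign ⟪x, v⟫ * ⟪x, w'⟫ * Real.exp (- ‖x‖ ^ 2) = 0 := by linarith
    rw [h3] at h1
    have h4 := mul_eq_zero.1 h1.symm
    rcases h4 with h4 | h4
    · exact h4
    · exfalso
      have : 0 < 1 / 2 * ((1 + 1) / 2 * Real.Gamma ((1 + 1) / 2)) := by positivity
      linarith
  have h1 := sphere_abs_moment (p := 1) one_pos hv
  simp only [Real.rpow_one] at h1
  have habsc : Continuous (fun ω : Metric.sphere (0 : E3) 1 => |⟪(ω : E3), v⟫|) := by fun_prop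
  have hint1 : Integrable (fun ω : Metric.sphere (0 : E3) 1 => ⟪v, w⟫ * |⟪(ω : E3), v⟫|) sig :=
    (habsc.integrable_of_hasCompactSupport (HasCompactSupport.of_compactSpace _)).const_mul _
  have hmeas_sign : Measurable Real.sign := by
    have : Real.sign = fun r : ℝ => if r < 0 then (-1 : ℝ) else if 0 < r then 1 else 0 := by
      funext r; rfl
    rw [this]
    exact Measurable.ite measurableSet_Iio measurable_const
      (Measurable.ite measurableSet_Ioi measurable_const measurable_const)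
  have hint2 : Integrable (fun ω : Metric.sphere (0 : E3) 1 =>
      Real.sign ⟪(ω : E3), v⟫ * ⟪(ω : E3), w'⟫) sig := by
    have hc : Continuous (fun ω : Metric.sphere (0 : E3) 1 => ⟪(ω : E3), w'⟫) := by fun_prop
    have hc2 : Continuous (fun ω : Metric.sphere (0 : E3) 1 => ⟪(ω : E3), v⟫) := by fun_prop
    refine (hc.integrable_of_hasCompactSupport (HasCompactSupport.of_compactSpace _)).bdd_mul
      (c := 1) ((hmeas_sign.comp hc2.measurable).aestronglyMeasurable) ?_
    refine Eventually.of_forall fun ω => ?_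
    rcases lt_trichotomy ⟪(ω : E3), v⟫ 0 with h | h | h
    · simp [Real.sign_of_neg h]
    · simp [h]
    · simp [Real.sign_of_pos h]
  have h2 : ∀ ω : Metric.sphere (0 : E3) 1, Real.sign ⟪(ω : E3), v⟫ * ⟪(ω : E3), w⟫ =
      ⟪v, w⟫ * |⟪(ω : E3), v⟫| + Real.sign ⟪(ω : E3), v⟫ * ⟪(ω : E3), w'⟫ := by
    intro ω
    have e1 : w = ⟪v, w⟫ • v + w' := by rw [hw']; abel
    have e2 : ⟪(ω : E3), w⟫ = ⟪v, w⟫ * ⟪(ω : E3), v⟫ + ⟪(ω : E3), w'⟫ := by
      conv_lhs => rw [e1]
      rw [inner_add_right, real_inner_smul_right]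
    rw [e2]
    have e3 : Real.sign ⟪(ω : E3), v⟫ * ⟪(ω : E3), v⟫ = |⟪(ω : E3), v⟫| := by
      rcases lt_trichotomy ⟪(ω : E3), v⟫ 0 with h | h | h
      · rw [Real.sign_of_neg h, abs_of_neg h]; ring
      · rw [h]; simp
      · rw [Real.sign_of_pos h, abs_of_pos h]; ring
    linear_combination ⟪v, w⟫ * e3
  simp only [h2]
  rw [integral_add hint1 hint2, integral_const_mul, h1, hzero]
  ring

end Pool.Agent.Lib.Ovals46
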