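import Pool.Agent.Lib.Ovals46.Scalar
import Pool.Agent.Lib.Ovals46.Sphere

/-!
# Averaging the scalar inequality over all directions
-/

set_option autoImplicit false

open MeasureTheory Set Filter Topology intervalIntegral
open scoped RealInnerProductSpace

namespace Pool.Agent.Lib.Ovals46

/-- Lebesgue measure of one period -/
noncomputable abbrev nu : Measure ℝ := volume.restrict (Ioc 0 (2 * Real.pi))

lemma two_pi_nonneg : (0 : ℝ) ≤ 2 * Real.pi := by positivity

lemma integrable_prod_of_continuous {F : Metric.sphere (0 : E3) 1 × ℝ → ℝ} (hF : Continuous F) :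
    Integrable F (sig.prod nu) := by
  have h1 : IntegrableOn F (univ ×ˢ Icc 0 (2 * Real.pi)) (sig.prod volume) :=
    hF.continuousOn.integrableOn_compact (isCompact_univ.prod isCompact_Icc)
  have h2 : IntegrableOn F (univ ×ˢ Ioc 0 (2 * Real.pi)) (sig.prod volume) :=
    h1.mono_set (prod_mono_right Ioc_subset_Icc_self)
  have h3 : (sig.prod volume).restrict (univ ×ˢ Ioc 0 (2 * Real.pi)) = sig.prod nu := by
    rw [← Measure.prod_restrict, Measure.restrict_univ]
  rwa [IntegrableOn, h3] at h2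

lemma integrable_left {F : Metric.sphere (0 : E3) 1 × ℝ → ℝ} (hF : Integrable F (sig.prod nu)) :
    Integrable (fun ω => ∫ s in (0 : ℝ)..(2 * Real.pi), F (ω, s)) sig := by
  have := hF.integral_prod_left
  simp only [intervalIntegral.integral_of_le two_pi_nonneg]
  exact this

lemma swap {F : Metric.sphere (0 : E3) 1 × ℝ → ℝ} (hF : Integrable F (sig.prod nu)) :
    ∫ ω, (∫ s in (0 : ℝ)..(2 * Real.pi), F (ω, s)) ∂sig =
      ∫ s in (0 : ℝ)..(2 * Real.pi), (∫ ω, F (ω, s) ∂sig) := by
  simp only [intervalIntegral.integral_of_le two_pi_nonneg]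
  exact integral_integral_swap hF

lemma measurable_sign : Measurable Real.sign := by
  have : Real.sign = fun r : ℝ => if r < 0 then (-1 : ℝ) else if 0 < r then 1 else 0 := by
    funext r; rfl
  rw [this]
  exact Measurable.ite measurableSet_Iio measurable_const
    (Measurable.ite measurableSet_Ioi measurable_const measurable_const)

lemma norm_sign_le (r : ℝ) : ‖Real.sign r‖ ≤ 1 := by
  rcases lt_trichotomy r 0 with h | h | h
  · simp [Real.sign_of_neg h]
  · simp [h]
  · simp [Real.sign_of_pos h]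

lemma integrable_sign_mul {F G : Metric.sphere (0 : E3) 1 × ℝ → ℝ} (hF : Continuous F)
    (hG : Continuous G) :
    Integrable (fun z => Real.sign (F z) * G z) (sig.prod nu) := by
  refine (integrable_prod_of_continuous hG).bdd_mul (c := 1)
    ((measurable_sign.comp hF.measurable).aestronglyMeasurable) ?_
  exact Eventually.of_forall fun z => norm_sign_le _

/-- **The lower bound**: abstract form for a closed curve on the sphere with zero mean. -/
theorem lower_bound {T T' : ℝ → E3} {p p' : ℝ → ℝ} (hT : ∀ s, HasDerivAt T (T' s) s)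
    (hT' : Continuous T') (hp : ∀ s, HasDerivAt p (p' s) s) (hp' : Continuous p')
    (hTper : Function.Periodic T (2 * Real.pi)) (hT'per : Function.Periodic T' (2 * Real.pi))
    (hpper : Function.Periodic p (2 * Real.pi)) (hp'per : Function.Periodic p' (2 * Real.pi))
    (hunit : ∀ s, ‖T s‖ = 1)
    (hmean : ∫ s in (0 : ℝ)..(2 * Real.pi), T s = 0)
    (hzero : ∀ w : E3, ∃ s₀, ⟪w, T s₀⟫ = 0) :
    324 / 343 * ∫ s in (0 : ℝ)..(2 * Real.pi), p s ^ 2 ≤
      ∫ s in (0 : ℝ)..(2 * Real.pi), (p' s ^ 2 + ‖T' s‖ ^ 2 * p s ^ 2) := by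
  have hpi := Real.pi_pos
  have hTc : Continuous T := continuous_iff_continuousAt.2 fun s => (hT s).continuousAt
  have hpc : Continuous p := continuous_iff_continuousAt.2 fun s => (hp s).continuousAt
  -- orthogonality of `T` and `T'`
  have horth : ∀ s, ⟪T s, T' s⟫ = 0 := by
    intro s
    have h1 : HasDerivAt (fun u => ⟪T u, T u⟫) (⟪T s, T' s⟫ + ⟪T' s, T s⟫) s :=
      (hT s).inner ℝ (hT s)
    have h2 : (fun u => ⟪T u, T u⟫) = fun _ => (1 : ℝ) := by
      funext u
      rw [real_inner_self_eq_norm_sq, hunit u]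
      norm_num
    rw [h2] at h1
    have h3 := h1.unique (hasDerivAt_const s (1 : ℝ))
    rw [real_inner_comm (T s) (T' s)] at h3
    linarith
  set W : E3 := ∫ s in (0 : ℝ)..(2 * Real.pi), p s ^ 2 • T s with hW
  -- the scalar inequality for each direction
  have hscal : ∀ ω : Metric.sphere (0 : E3) 1,
      108 / 49 * (∫ s in (0 : ℝ)..(2 * Real.pi), p s ^ 2 * |⟪(ω : E3), T s⟫| ^ (4 / 3 : ℝ)) -
      432 / 343 * (∫ s in (0 : ℝ)..(2 * Real.pi), p s ^ 2 * |⟪(ω : E3), T s⟫|) -
      216 / (343 * Real.pi) *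
        (∫ t in (0 : ℝ)..(2 * Real.pi), Real.sign ⟪(ω : E3), T t⟫ * ⟪(ω : E3), W⟫) ≤
      ∫ s in (0 : ℝ)..(2 * Real.pi), ⟪(ω : E3), p' s • T s + p s • T' s⟫ ^ 2 := by
    intro ω
    obtain ⟨s₀, hs₀⟩ := hzero (ω : E3)
    have hf : ∀ s, HasDerivAt (fun u => ⟪(ω : E3), T u⟫) ⟪(ω : E3), T' s⟫ s := by
      intro s
      have := (hasDerivAt_const s (ω : E3)).inner ℝ (hT s)
      simpa using this
    have hfc : Continuous (fun u => ⟪(ω : E3), T u⟫) := by fun_prop
    have hrc : Continuous (fun s => |⟪(ω : E3), T s⟫| ^ (4 / 3 : ℝ)) :=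
      hfc.abs.rpow_const (fun s => Or.inr (by norm_num))
    have H := scalar_ineq (f := fun u => ⟪(ω : E3), T u⟫) (f' := fun u => ⟪(ω : E3), T' u⟫)
      (p := p) (p' := p') hf (by fun_prop) hp hp' (fun s => by simp only [hTper s]) hpper
      (fun s => by simp only [hT'per s]) hp'per hs₀
    have e1 : ∫ s in (0 : ℝ)..(2 * Real.pi),
        (p' s * ⟪(ω : E3), T s⟫ + p s * ⟪(ω : E3), T' s⟫) ^ 2 =
        ∫ s in (0 : ℝ)..(2 * Real.pi), ⟪(ω : E3), p' s • T s + p s • T' s⟫ ^ 2 := by
      apply intervalIntegral.integral_congr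
      intro s _
      simp only [inner_add_right, real_inner_smul_right]
    rw [e1] at H
    refine le_trans (le_of_eq ?_) H
    set S := ∫ t in (0 : ℝ)..(2 * Real.pi), Real.sign ⟪(ω : E3), T t⟫ with hS
    have e2 : ∫ t in (0 : ℝ)..(2 * Real.pi), Real.sign ⟪(ω : E3), T t⟫ * ⟪(ω : E3), W⟫ =
        S * ⟪(ω : E3), W⟫ := by
      rw [intervalIntegral.integral_mul_const]
    have e3 : ⟪(ω : E3), W⟫ = ∫ s in (0 : ℝ)..(2 * Real.pi), p s ^ 2 * ⟪(ω : E3), T s⟫ := by
      rw [hW, intervalIntegral.integral_of_le two_pi_nonneg,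
        intervalIntegral.integral_of_le two_pi_nonneg, ← integral_inner]
      · simp only [real_inner_smul_right]
      · have : Continuous (fun s => p s ^ 2 • T s) := by fun_prop
        exact (this.intervalIntegrable 0 (2 * Real.pi)).1
    clear_value S
    have e4 : ∫ s in (0 : ℝ)..(2 * Real.pi), (p s ^ 2 * (108 / 49 * |⟪(ω : E3), T s⟫| ^ (4 / 3 : ℝ)
        - 432 / 343 * |⟪(ω : E3), T s⟫| - 216 / (343 * Real.pi) * S * ⟪(ω : E3), T s⟫)) =
        108 / 49 * (∫ s in (0 : ℝ)..(2 * Real.pi), p s ^ 2 * |⟪(ω : E3), T s⟫| ^ (4 / 3 : ℝ)) -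
        432 / 343 * (∫ s in (0 : ℝ)..(2 * Real.pi), p s ^ 2 * |⟪(ω : E3), T s⟫|) -
        216 / (343 * Real.pi) * (S * ∫ s in (0 : ℝ)..(2 * Real.pi), p s ^ 2 * ⟪(ω : E3), T s⟫) := by
      rw [← intervalIntegral.integral_const_mul, ← intervalIntegral.integral_const_mul,
        ← intervalIntegral.integral_const_mul, ← intervalIntegral.integral_const_mul,
        ← intervalIntegral.integral_sub, ← intervalIntegral.integral_sub]
      · apply intervalIntegral.integral_congr
        intro s _
        simp only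
        ring
      all_goals exact Continuous.intervalIntegrable (by fun_prop) _ _
    rw [e2, e3, e4]
  -- integrability over the sphere
  have hc1 : Continuous (fun z : Metric.sphere (0 : E3) 1 × ℝ =>
      p z.2 ^ 2 * |⟪(z.1 : E3), T z.2⟫| ^ (4 / 3 : ℝ)) := by
    have h1 : Continuous (fun z : Metric.sphere (0 : E3) 1 × ℝ => |⟪(z.1 : E3), T z.2⟫|) := by
      fun_prop
    have h2 := h1.rpow_const (p := (4 / 3 : ℝ)) (fun s => Or.inr (by norm_num))
    have h3 : Continuous (fun z : Metric.sphere (0 : E3) 1 × ℝ => p z.2 ^ 2) := by fun_prop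
    exact h3.mul h2
  have hc2 : Continuous (fun z : Metric.sphere (0 : E3) 1 × ℝ =>
      p z.2 ^ 2 * |⟪(z.1 : E3), T z.2⟫|) := by fun_prop
  have hc4 : Continuous (fun z : Metric.sphere (0 : E3) 1 × ℝ =>
      ⟪(z.1 : E3), p' z.2 • T z.2 + p z.2 • T' z.2⟫ ^ 2) := by fun_prop
  have hi1 := integrable_prod_of_continuous hc1
  have hi2 := integrable_prod_of_continuous hc2
  have hi4 := integrable_prod_of_continuous hc4
  have hi3 : Integrable (fun z : Metric.sphere (0 : E3) 1 × ℝ =>
      Real.sign ⟪(z.1 : E3), T z.2⟫ * ⟪(z.1 : E3), W⟫) (sig.prod nu) :=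
    integrable_sign_mul (F := fun z => ⟪(z.1 : E3), T z.2⟫) (G := fun z => ⟪(z.1 : E3), W⟫)
      (by fun_prop) (by fun_prop)
  have hmono := integral_mono
    ((((integrable_left hi1).const_mul (108 / 49)).sub
      ((integrable_left hi2).const_mul (432 / 343))).sub
      ((integrable_left hi3).const_mul (216 / (343 * Real.pi))))
    (integrable_left hi4) (fun ω => hscal ω)
  simp only [Pi.sub_apply] at hmono
  rw [MeasureTheory.integral_sub, MeasureTheory.integral_sub, MeasureTheory.integral_const_mul,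
    MeasureTheory.integral_const_mul, MeasureTheory.integral_const_mul, swap hi1, swap hi2, swap hi3, swap hi4] at hmono
  rotate_left
  · exact (integrable_left hi1).const_mul (108 / 49)
  · exact (integrable_left hi2).const_mul (432 / 343)
  · exact ((integrable_left hi1).const_mul (108 / 49)).sub
      ((integrable_left hi2).const_mul (432 / 343))
  · exact (integrable_left hi3).const_mul (216 / (343 * Real.pi))
  -- evaluate the spherical integrals
  have v1 : ∫ s in (0 : ℝ)..(2 * Real.pi), (∫ ω : Metric.sphere (0 : E3) 1,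
      p s ^ 2 * |⟪(ω : E3), T s⟫| ^ (4 / 3 : ℝ) ∂sig) =
      12 * Real.pi / 7 * ∫ s in (0 : ℝ)..(2 * Real.pi), p s ^ 2 := by
    rw [← intervalIntegral.integral_const_mul]
    apply intervalIntegral.integral_congr
    intro s _
    simp only
    rw [MeasureTheory.integral_const_mul, sphere_abs_moment (by norm_num) (hunit s)]
    ring
  have v2 : ∫ s in (0 : ℝ)..(2 * Real.pi), (∫ ω : Metric.sphere (0 : E3) 1,
      p s ^ 2 * |⟪(ω : E3), T s⟫| ∂sig) =
      2 * Real.pi * ∫ s in (0 : ℝ)..(2 * Real.pi), p s ^ 2 := by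
    rw [← intervalIntegral.integral_const_mul]
    apply intervalIntegral.integral_congr
    intro s _
    simp only
    have := sphere_abs_moment (p := 1) one_pos (hunit s)
    simp only [Real.rpow_one] at this
    rw [MeasureTheory.integral_const_mul, this]
    ring
  have v3 : ∫ s in (0 : ℝ)..(2 * Real.pi), (∫ ω : Metric.sphere (0 : E3) 1,
      Real.sign ⟪(ω : E3), T s⟫ * ⟪(ω : E3), W⟫ ∂sig) = 0 := by
    have e1 : ∫ s in (0 : ℝ)..(2 * Real.pi), (∫ ω : Metric.sphere (0 : E3) 1,
        Real.sign ⟪(ω : E3), T s⟫ * ⟪(ω : E3), W⟫ ∂sig) =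
        ∫ s in (0 : ℝ)..(2 * Real.pi), 2 * Real.pi * ⟪W, T s⟫ := by
      apply intervalIntegral.integral_congr
      intro s _
      simp only
      rw [sphere_sign (hunit s), real_inner_comm]
    rw [e1, intervalIntegral.integral_const_mul, intervalIntegral.integral_of_le two_pi_nonneg,
      integral_inner]
    · rw [← intervalIntegral.integral_of_le two_pi_nonneg, hmean, inner_zero_right, mul_zero]
    · exact (hTc.intervalIntegrable 0 (2 * Real.pi)).1
  have v4 : ∫ s in (0 : ℝ)..(2 * Real.pi), (∫ ω : Metric.sphere (0 : E3) 1,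
      ⟪(ω : E3), p' s • T s + p s • T' s⟫ ^ 2 ∂sig) =
      4 * Real.pi / 3 *
        ∫ s in (0 : ℝ)..(2 * Real.pi), (p' s ^ 2 + ‖T' s‖ ^ 2 * p s ^ 2) := by
    rw [← intervalIntegral.integral_const_mul]
    apply intervalIntegral.integral_congr
    intro s _
    simp only
    rw [sphere_sq]
    congr 1
    rw [← real_inner_self_eq_norm_sq, inner_add_left, inner_add_right, inner_add_right,
      real_inner_smul_left, real_inner_smul_left, real_inner_smul_left, real_inner_smul_left,
      real_inner_smul_right, real_inner_smul_right, real_inner_smul_right, real_inner_smul_right,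
      real_inner_self_eq_norm_sq, real_inner_self_eq_norm_sq, real_inner_comm (T s) (T' s),
      horth s, hunit s]
    ring
  rw [v1, v2, v3, v4] at hmono
  set X := ∫ s in (0 : ℝ)..(2 * Real.pi), p s ^ 2 with hX
  set Y := ∫ s in (0 : ℝ)..(2 * Real.pi), (p' s ^ 2 + ‖T' s‖ ^ 2 * p s ^ 2) with hY
  have h5 : Real.pi * (324 / 343 * X) ≤ Real.pi * Y := by
    nlinarith
  exact le_of_mul_le_mul_left h5 hpi

end Pool.Agent.Lib.Ovals46
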