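import Pool.Agent.Lib.Ovals46.Reciprocal

/-!
# The ovals inequality when the curvature has period `2π/m`, `m ≥ 2`
-/

set_option autoImplicit false

open MeasureTheory Set Real
open scoped RealInnerProductSpace

namespace Pool.Agent.Lib.Ovals46

/-- the first harmonics of a function of period `2π/m` vanish -/
lemma harmonic_zero {g : ℝ → ℝ} (hg : Continuous g) {h : ℝ} (hper : ∀ s, g (s + h) = g s)
    (hper2 : ∀ s, g (s + 2 * π) = g s) (hh : cos h ≠ 1) :
    (∫ s in (0 : ℝ)..(2 * π), cos s / g s = 0) ∧ (∫ s in (0 : ℝ)..(2 * π), sin s / g s = 0) ∨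
      (∃ s, g s = 0) := by
  by_cases hz : ∃ s, g s = 0
  · exact Or.inr hz
  left
  push Not at hz
  set C := ∫ s in (0 : ℝ)..(2 * π), cos s / g s with hC
  set S := ∫ s in (0 : ℝ)..(2 * π), sin s / g s with hS
  have cC : Continuous fun s => cos s / g s := continuous_cos.div hg hz
  have cS : Continuous fun s => sin s / g s := continuous_sin.div hg hz
  have pC : Function.Periodic (fun s => cos s / g s) (2 * π) := fun s => by
    simp only [cos_add_two_pi, hper2]
  have pS : Function.Periodic (fun s => sin s / g s) (2 * π) := fun s => by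
    simp only [sin_add_two_pi, hper2]
  have shift : ∀ {f : ℝ → ℝ}, Function.Periodic f (2 * π) →
      ∫ s in (0 : ℝ)..(2 * π), f (s + h) = ∫ s in (0 : ℝ)..(2 * π), f s := by
    intro f hf
    rw [intervalIntegral.integral_comp_add_right, zero_add, add_comm (2 * π) h,
      hf.intervalIntegral_add_eq h 0, zero_add]
  have e1 : C = cos h * C - sin h * S := by
    have h1 : ∫ s in (0 : ℝ)..(2 * π), cos (s + h) / g (s + h) = C := shift pC
    have h2 : ∀ s, cos (s + h) / g (s + h) = cos h * (cos s / g s) - sin h * (sin s / g s) := by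
      intro s
      rw [hper, cos_add]
      ring
    have i1 : Continuous fun s => cos h * (cos s / g s) := continuous_const.mul cC
    have i2 : Continuous fun s => sin h * (sin s / g s) := continuous_const.mul cS
    have h3 : ∫ s in (0 : ℝ)..(2 * π), (cos h * (cos s / g s) - sin h * (sin s / g s)) =
        cos h * C - sin h * S := by
      rw [intervalIntegral.integral_sub (i1.intervalIntegrable _ _) (i2.intervalIntegrable _ _),
        intervalIntegral.integral_const_mul, intervalIntegral.integral_const_mul]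
    simp_rw [h2] at h1
    rw [h3] at h1
    exact h1.symm
  have e2 : S = cos h * S + sin h * C := by
    have h1 : ∫ s in (0 : ℝ)..(2 * π), sin (s + h) / g (s + h) = S := shift pS
    have h2 : ∀ s, sin (s + h) / g (s + h) = cos h * (sin s / g s) + sin h * (cos s / g s) := by
      intro s
      rw [hper, sin_add]
      ring
    have i1 : Continuous fun s => cos h * (sin s / g s) := continuous_const.mul cS
    have i2 : Continuous fun s => sin h * (cos s / g s) := continuous_const.mul cC
    have h3 : ∫ s in (0 : ℝ)..(2 * π), (cos h * (sin s / g s) + sin h * (cos s / g s)) =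
        cos h * S + sin h * C := by
      rw [intervalIntegral.integral_add (i1.intervalIntegrable _ _) (i2.intervalIntegrable _ _),
        intervalIntegral.integral_const_mul, intervalIntegral.integral_const_mul]
    simp_rw [h2] at h1
    rw [h3] at h1
    exact h1.symm
  have h3 := sin_sq_add_cos_sq h
  have h4 : (1 - cos h) * (C ^ 2 + S ^ 2) = 0 := by
    have a1 : C * (C - (cos h * C - sin h * S)) = 0 := by rw [← e1]; ring
    have a2 : S * (S - (cos h * S + sin h * C)) = 0 := by rw [← e2]; ring
    linear_combination a1 + a2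
  have h5 : C ^ 2 + S ^ 2 = 0 := by
    rcases mul_eq_zero.1 h4 with h | h
    · exact absurd (by linarith) hh
    · exact h
  constructor
  · nlinarith [sq_nonneg C, sq_nonneg S]
  · nlinarith [sq_nonneg C, sq_nonneg S]

/-- cyclic sums are periodic -/
lemma cyclic_sum {g : ℝ → ℝ} {m : ℕ} {h : ℝ} (hper : ∀ s, g (s + m * h) = g s) (s : ℝ) :
    ∑ k ∈ Finset.range m, g (s + h + k * h) = ∑ k ∈ Finset.range m, g (s + k * h) := by
  have h1 := Finset.sum_range_succ (fun k : ℕ => g (s + k * h)) m
  have h2 := Finset.sum_range_succ' (fun k : ℕ => g (s + k * h)) m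
  rw [h1] at h2
  have h3 : g (s + (m : ℝ) * h) = g (s + ((0 : ℕ) : ℝ) * h) := by
    rw [hper]; simp
  rw [h3] at h2
  have h4 := add_right_cancel h2
  rw [h4]
  refine Finset.sum_congr rfl fun k _ => ?_
  congr 1
  push_cast
  ring

theorem periodic_curvature {T T' : ℝ → EuclideanSpace ℝ (Fin 3)} {φ φ' : ℝ → ℝ}
    (hT : ∀ s, HasDerivAt T (T' s) s) (hT' : Continuous T')
    (hφ : ∀ s, HasDerivAt φ (φ' s) s) (hφ' : Continuous φ')
    (hTper : Function.Periodic T (2 * π)) (hφper : Function.Periodic φ (2 * π))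
    (hunit : ∀ s, ‖T s‖ = 1) (hmean : ∫ s in (0 : ℝ)..(2 * π), T s = 0)
    (m : ℕ) (hm : 2 ≤ m) (hκ : ∀ s, ‖T' (s + 2 * π / m)‖ = ‖T' s‖) :
    ∫ s in (0 : ℝ)..(2 * π), φ s ^ 2 ≤
      ∫ s in (0 : ℝ)..(2 * π), (φ' s ^ 2 + ‖T' s‖ ^ 2 * φ s ^ 2) := by
  have hpi := Real.pi_pos
  have hφc : Continuous φ := continuous_iff_continuousAt.2 fun s => (hφ s).continuousAt
  have hm0 : (0 : ℝ) < m := by exact_mod_cast (by omega : 0 < m)
  have hm2 : (2 : ℝ) ≤ m := by exact_mod_cast hm
  set h : ℝ := 2 * π / m with hh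
  have hmh : (m : ℝ) * h = 2 * π := by rw [hh]; field_simp
  have hcos : cos h ≠ 1 := by
    have h1 : 0 < h := by positivity
    have h2 : h ≤ π := by
      rw [hh, div_le_iff₀ hm0]
      nlinarith
    have h3 : cos h < cos 0 := by
      refine Real.strictAntiOn_cos ?_ ?_ h1
      · exact ⟨le_refl _, hpi.le⟩
      · exact ⟨h1.le, h2⟩
    rw [cos_zero] at h3
    exact h3.ne
  have hφ'per : Function.Periodic φ' (2 * π) := by
    intro s
    exact Pool.Agent.MP_ae5b4e_an_total.deriv_per hφ hφper s
  have hκk : ∀ (k : ℕ) s, ‖T' (s + k * h)‖ = ‖T' s‖ := by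
    intro k
    induction k with
    | zero => intro s; simp
    | succ k ih =>
      intro s
      have : s + ((k + 1 : ℕ) : ℝ) * h = (s + k * h) + h := by push_cast; ring
      rw [this, hκ, ih]
  -- the averaged square
  set S : ℝ → ℝ := fun s => (1 / m : ℝ) * ∑ k ∈ Finset.range m, φ (s + k * h) ^ 2 with hS
  set S' : ℝ → ℝ := fun s =>
    (1 / m : ℝ) * ∑ k ∈ Finset.range m, 2 * φ (s + k * h) * φ' (s + k * h) with hS'
  set R : ℝ → ℝ := fun s => (1 / m : ℝ) * ∑ k ∈ Finset.range m, φ' (s + k * h) ^ 2 with hR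
  have hSc : Continuous S := by fun_prop
  have hS'c : Continuous S' := by fun_prop
  have hRc : Continuous R := by fun_prop
  have hSd : ∀ s, HasDerivAt S (S' s) s := by
    intro s
    refine HasDerivAt.const_mul _ (HasDerivAt.fun_sum fun k _ => ?_)
    have h1 := ((hφ (s + k * h)).comp_add_const s (k * h)).pow 2
    refine h1.congr_deriv ?_
    simp
  have hS0 : ∀ s, 0 ≤ S s := fun s =>
    mul_nonneg (by positivity) (Finset.sum_nonneg fun k _ => sq_nonneg _)
  have hR0 : ∀ s, 0 ≤ R s := fun s =>
    mul_nonneg (by positivity) (Finset.sum_nonneg fun k _ => sq_nonneg _)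
  have hSper : ∀ s, S (s + h) = S s := by
    intro s
    simp only [hS]
    rw [cyclic_sum (g := fun u => φ u ^ 2)]
    intro u
    rw [hmh, hφper]
  have hSper2 : ∀ s, S (s + 2 * π) = S s := by
    intro s
    simp only [hS]
    congr 1
    refine Finset.sum_congr rfl fun k _ => ?_
    have : s + 2 * π + k * h = (s + k * h) + 2 * π := by ring
    rw [this, hφper]
  have hCS : ∀ s, S' s ^ 2 ≤ 4 * S s * R s := by
    intro s
    have h1 := Finset.sum_mul_sq_le_sq_mul_sq (Finset.range m) (fun k => φ (s + k * h))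
      (fun k => φ' (s + k * h))
    simp only [hS, hS', hR]
    have h2 : ∑ k ∈ Finset.range m, 2 * φ (s + k * h) * φ' (s + k * h) =
        2 * ∑ k ∈ Finset.range m, φ (s + k * h) * φ' (s + k * h) := by
      rw [Finset.mul_sum]
      exact Finset.sum_congr rfl fun k _ => by ring
    rw [h2]
    have h3 : (0 : ℝ) ≤ (1 / m) ^ 2 := by positivity
    nlinarith [mul_le_mul_of_nonneg_left h1 h3]
  -- integrals
  have shift : ∀ {f : ℝ → ℝ}, Function.Periodic f (2 * π) → ∀ a : ℝ,
      ∫ s in (0 : ℝ)..(2 * π), f (s + a) = ∫ s in (0 : ℝ)..(2 * π), f s := by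
    intro f hf a
    rw [intervalIntegral.integral_comp_add_right, zero_add, add_comm (2 * π) a,
      hf.intervalIntegral_add_eq a 0, zero_add]
  have avg : ∀ {f : ℝ → ℝ}, Continuous f → Function.Periodic f (2 * π) →
      ∫ s in (0 : ℝ)..(2 * π), (1 / m : ℝ) * ∑ k ∈ Finset.range m, f (s + k * h) =
        ∫ s in (0 : ℝ)..(2 * π), f s := by
    intro f hfc hf
    rw [intervalIntegral.integral_const_mul, intervalIntegral.integral_finset_sum]
    · simp_rw [shift hf]
      rw [Finset.sum_const, Finset.card_range, nsmul_eq_mul]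
      field_simp
    · intro k _
      exact Continuous.intervalIntegrable (by fun_prop) _ _
  have iS : ∫ s in (0 : ℝ)..(2 * π), S s = ∫ s in (0 : ℝ)..(2 * π), φ s ^ 2 :=
    avg (f := fun s => φ s ^ 2) (by fun_prop) (fun s => by simp only [hφper s])
  have iR : ∫ s in (0 : ℝ)..(2 * π), R s = ∫ s in (0 : ℝ)..(2 * π), φ' s ^ 2 :=
    avg (f := fun s => φ' s ^ 2) (by fun_prop) (fun s => by simp only [hφ'per s])
  have hκper2 : ∀ s, ‖T' (s + 2 * π)‖ = ‖T' s‖ := by
    intro s
    rw [← hmh]
    exact hκk m s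
  have iK : ∫ s in (0 : ℝ)..(2 * π), ‖T' s‖ ^ 2 * S s =
      ∫ s in (0 : ℝ)..(2 * π), ‖T' s‖ ^ 2 * φ s ^ 2 := by
    rw [← avg (f := fun s => ‖T' s‖ ^ 2 * φ s ^ 2) (by fun_prop)
      (fun s => by simp only [hφper s, hκper2 s])]
    refine intervalIntegral.integral_congr fun s _ => ?_
    simp only [hS, hκk]
    rw [← Finset.mul_sum]
    ring
  -- the inequality for `Φ = √(S + ε)`
  have main : ∀ ε : ℝ, 0 < ε → ∫ s in (0 : ℝ)..(2 * π), φ s ^ 2 ≤
      (∫ s in (0 : ℝ)..(2 * π), (φ' s ^ 2 + ‖T' s‖ ^ 2 * φ s ^ 2)) +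
        ε * ∫ s in (0 : ℝ)..(2 * π), ‖T' s‖ ^ 2 := by
    intro ε hε
    have hp : ∀ s, 0 < S s + ε := fun s => add_pos_of_nonneg_of_pos (hS0 s) hε
    have hΦd : ∀ s, HasDerivAt (fun u => √(S u + ε)) (S' s / (2 * √(S s + ε))) s := by
      intro s
      exact ((hSd s).add_const ε).sqrt (hp s).ne'
    have hΦpos : ∀ s, 0 < √(S s + ε) := fun s => Real.sqrt_pos.2 (hp s)
    have hΦ'c : Continuous fun s => S' s / (2 * √(S s + ε)) := by
      refine hS'c.div (by fun_prop) fun s => ?_
      have := hΦpos s
      positivity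
    have hΦc : Continuous fun s => √(S s + ε) := by fun_prop
    have hz := harmonic_zero (g := fun s => √(S s + ε)) hΦc (h := h)
      (fun s => by simp only [hSper]) (fun s => by simp only [hSper2]) hcos
    rcases hz with ⟨hc, hs⟩ | ⟨s, hs⟩
    · have h1 := reciprocal_test hT hT' hΦd hΦ'c hTper (fun s => by simp only [hSper2]) hunit
        hmean hΦpos hc hs
      have e1 : ∫ s in (0 : ℝ)..(2 * π), √(S s + ε) ^ 2 =
          (∫ s in (0 : ℝ)..(2 * π), φ s ^ 2) + 2 * π * ε := by
        rw [← iS]
        have : ∀ s, √(S s + ε) ^ 2 = S s + ε := fun s => Real.sq_sqrt (hp s).le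
        simp_rw [this]
        rw [intervalIntegral.integral_add (hSc.intervalIntegrable _ _)
          (continuous_const.intervalIntegrable _ _), intervalIntegral.integral_const]
        simp
      have e2 : ∫ s in (0 : ℝ)..(2 * π), ((S' s / (2 * √(S s + ε))) ^ 2 +
          ‖T' s‖ ^ 2 * √(S s + ε) ^ 2) ≤
          (∫ s in (0 : ℝ)..(2 * π), (φ' s ^ 2 + ‖T' s‖ ^ 2 * φ s ^ 2)) +
            ε * ∫ s in (0 : ℝ)..(2 * π), ‖T' s‖ ^ 2 := by
        have h2 : ∫ s in (0 : ℝ)..(2 * π), ((S' s / (2 * √(S s + ε))) ^ 2 +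
            ‖T' s‖ ^ 2 * √(S s + ε) ^ 2) ≤
            ∫ s in (0 : ℝ)..(2 * π), (R s + ‖T' s‖ ^ 2 * S s + ε * ‖T' s‖ ^ 2) := by
          refine intervalIntegral.integral_mono_on (by positivity)
            (Continuous.intervalIntegrable (by fun_prop) _ _)
            (Continuous.intervalIntegrable (by fun_prop) _ _) fun s _ => ?_
          have h3 : √(S s + ε) ^ 2 = S s + ε := Real.sq_sqrt (hp s).le
          have h4 : (S' s / (2 * √(S s + ε))) ^ 2 ≤ R s := by
            have h5 : (S' s / (2 * √(S s + ε))) ^ 2 = S' s ^ 2 / (4 * (S s + ε)) := by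
              rw [div_pow]
              congr 1
              rw [mul_pow, h3]; norm_num
            rw [h5, div_le_iff₀ (by have := hp s; positivity)]
            have h6 := hCS s
            have h7 := mul_nonneg (hR0 s) hε.le
            linarith
          rw [h3]
          linarith
        refine h2.trans (le_of_eq ?_)
        have cT : Continuous fun s => ‖T' s‖ ^ 2 := by fun_prop
        rw [intervalIntegral.integral_add (Continuous.intervalIntegrable (by fun_prop) _ _)
          (Continuous.intervalIntegrable (by fun_prop) _ _),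
          intervalIntegral.integral_add (Continuous.intervalIntegrable (by fun_prop) _ _)
          (Continuous.intervalIntegrable (by fun_prop) _ _), iR, iK,
          intervalIntegral.integral_const_mul,
          intervalIntegral.integral_add (Continuous.intervalIntegrable (by fun_prop) _ _)
          (Continuous.intervalIntegrable (by fun_prop) _ _)]
      rw [e1] at h1
      have : 0 < 2 * π * ε := by positivity
      linarith
    · exact absurd hs (hΦpos s).ne'
  -- let `ε → 0`
  refine le_of_forall_pos_le_add fun δ hδ => ?_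
  set K := ∫ s in (0 : ℝ)..(2 * π), ‖T' s‖ ^ 2 with hK
  have hK0 : 0 ≤ K := intervalIntegral.integral_nonneg (by positivity) fun s _ => by positivity
  have h1 := main (δ / (K + 1)) (by positivity)
  have h2 : δ / (K + 1) * K ≤ δ := by
    rw [div_mul_eq_mul_div, div_le_iff₀ (by positivity)]
    nlinarith
  linarith

end Pool.Agent.Lib.Ovals46
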