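import Pool.Agent.Lib.MP_ae5b4e_an_total.Wirt

/-!
# The ovals inequality for test functions whose reciprocal has no first harmonic

If `φ > 0` and `1/φ` is orthogonal to `cos` and `sin`, then
`∫ φ² ≤ ∫ (φ'² + |T'|² φ²)` for every closed unit vector field `T` of mean zero.
-/

set_option autoImplicit false

open MeasureTheory Set Real
open scoped RealInnerProductSpace

namespace Pool.Agent.Lib.Ovals46

/-- the scalar inequality -/
theorem reciprocal_core {x x' w : ℝ → ℝ} (hx : ∀ s, HasDerivAt x (x' s) s)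
    (hx' : Continuous x') (hxper : ∀ s, x (s + 2 * π) = x s) (hw : Continuous w)
    (hwper : ∀ s, w (s + 2 * π) = w s) (hwpos : ∀ s, 0 < w s)
    (hc : ∫ s in (0 : ℝ)..(2 * π), w s * cos s = 0)
    (hs : ∫ s in (0 : ℝ)..(2 * π), w s * sin s = 0)
    (horth : ∫ s in (0 : ℝ)..(2 * π), x s * w s = 0) :
    ∫ s in (0 : ℝ)..(2 * π), (x s ^ 2 - x' s ^ 2) ≤ 0 := by
  obtain ⟨z, z', hz, hz', hzper, hzz⟩ :=
    Pool.Agent.MP_ae5b4e_an_total.exists_body hw hwper hwpos hc hs
  refine Pool.Agent.MP_ae5b4e_an_total.minkowski hx hx' hxper hw hz hz' hzper hzz ?_ horth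
  exact intervalIntegral.intervalIntegral_pos_of_pos_on (hw.intervalIntegrable _ _)
    (fun s _ => hwpos s) (by positivity)

/-- the vector version -/
theorem reciprocal_test {T T' : ℝ → EuclideanSpace ℝ (Fin 3)} {φ φ' : ℝ → ℝ}
    (hT : ∀ s, HasDerivAt T (T' s) s) (hT' : Continuous T')
    (hφ : ∀ s, HasDerivAt φ (φ' s) s) (hφ' : Continuous φ')
    (hTper : Function.Periodic T (2 * π)) (hφper : Function.Periodic φ (2 * π))
    (hunit : ∀ s, ‖T s‖ = 1) (hmean : ∫ s in (0 : ℝ)..(2 * π), T s = 0)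
    (hpos : ∀ s, 0 < φ s)
    (hc : ∫ s in (0 : ℝ)..(2 * π), cos s / φ s = 0)
    (hs : ∫ s in (0 : ℝ)..(2 * π), sin s / φ s = 0) :
    ∫ s in (0 : ℝ)..(2 * π), φ s ^ 2 ≤
      ∫ s in (0 : ℝ)..(2 * π), (φ' s ^ 2 + ‖T' s‖ ^ 2 * φ s ^ 2) := by
  have hTc : Continuous T := continuous_iff_continuousAt.2 fun s => (hT s).continuousAt
  have hφc : Continuous φ := continuous_iff_continuousAt.2 fun s => (hφ s).continuousAt
  have hTj : ∀ j s, HasDerivAt (fun s => T s j) (T' s j) s := by
    intro j s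
    exact ((EuclideanSpace.proj j : EuclideanSpace ℝ (Fin 3) →L[ℝ] ℝ).hasFDerivAt).comp_hasDerivAt
      s (hT s)
  have hTjc : ∀ j, Continuous fun s => T s j := fun j =>
    (EuclideanSpace.proj j : EuclideanSpace ℝ (Fin 3) →L[ℝ] ℝ).continuous.comp hTc
  have hTjc' : ∀ j, Continuous fun s => T' s j := fun j =>
    (EuclideanSpace.proj j : EuclideanSpace ℝ (Fin 3) →L[ℝ] ℝ).continuous.comp hT'
  have hmj : ∀ j, ∫ s in (0 : ℝ)..(2 * π), T s j = 0 := by
    intro j
    have h := (EuclideanSpace.proj j : EuclideanSpace ℝ (Fin 3) →L[ℝ] ℝ).intervalIntegral_comp_comm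
      (hTc.intervalIntegrable (μ := volume) 0 (2 * π))
    rw [hmean, map_zero] at h
    exact h
  -- the scalar inequalities
  have key : ∀ j, ∫ s in (0 : ℝ)..(2 * π),
      ((φ s * T s j) ^ 2 - (φ' s * T s j + φ s * T' s j) ^ 2) ≤ 0 := by
    intro j
    have hne : ∀ s, φ s ≠ 0 := fun s => (hpos s).ne'
    refine reciprocal_core (x := fun s => φ s * T s j)
      (x' := fun s => φ' s * T s j + φ s * T' s j) (w := fun s => (φ s)⁻¹)
      (fun s => (hφ s).mul (hTj j s)) ?_ ?_ ?_ ?_ ?_ ?_ ?_ ?_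
    · have h1 := hTjc j
      have h2 := hTjc' j
      fun_prop
    · intro s
      show φ (s + 2 * π) * T (s + 2 * π) j = φ s * T s j
      rw [hφper s, hTper s]
    · exact hφc.inv₀ hne
    · intro s
      show (φ (s + 2 * π))⁻¹ = (φ s)⁻¹
      rw [hφper s]
    · intro s
      exact inv_pos.2 (hpos s)
    · refine Eq.trans ?_ hc
      refine intervalIntegral.integral_congr fun s _ => ?_
      rw [div_eq_mul_inv, mul_comm]
    · refine Eq.trans ?_ hs
      refine intervalIntegral.integral_congr fun s _ => ?_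
      rw [div_eq_mul_inv, mul_comm]
    · refine Eq.trans ?_ (hmj j)
      refine intervalIntegral.integral_congr fun s _ => ?_
      simp only
      have := hne s
      field_simp
  -- sum over the components
  have hsum : ∑ j : Fin 3, ∫ s in (0 : ℝ)..(2 * π),
      ((φ s * T s j) ^ 2 - (φ' s * T s j + φ s * T' s j) ^ 2) ≤ 0 :=
    Finset.sum_nonpos fun j _ => key j
  rw [← intervalIntegral.integral_finset_sum] at hsum
  · have e : ∀ s, ∑ j : Fin 3, ((φ s * T s j) ^ 2 - (φ' s * T s j + φ s * T' s j) ^ 2) =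
        φ s ^ 2 - (φ' s ^ 2 + ‖T' s‖ ^ 2 * φ s ^ 2) := by
      intro s
      have h1 : ∑ j : Fin 3, (T s j) ^ 2 = 1 := by
        have := EuclideanSpace.real_norm_sq_eq (T s)
        rw [hunit s] at this
        rw [← this]; norm_num
      have h2 : ∑ j : Fin 3, (T' s j) ^ 2 = ‖T' s‖ ^ 2 := (EuclideanSpace.real_norm_sq_eq (T' s)).symm
      have h3 : ∑ j : Fin 3, T s j * T' s j = 0 := by
        have hd : HasDerivAt (fun u => ∑ j : Fin 3, (T u j) ^ 2)
            (∑ j : Fin 3, (2 * T s j * T' s j)) s := by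
          have h4 := HasDerivAt.fun_sum (u := Finset.univ) (fun (j : Fin 3) _ =>
            (hTj j s).pow 2)
          refine h4.congr_deriv ?_
          refine Finset.sum_congr rfl fun j _ => ?_
          simp
        have hconst : (fun u => ∑ j : Fin 3, (T u j) ^ 2) = fun _ => (1 : ℝ) := by
          funext u
          have := EuclideanSpace.real_norm_sq_eq (T u)
          rw [hunit u] at this
          rw [← this]; norm_num
        rw [hconst] at hd
        have h5 := hd.unique (hasDerivAt_const s (1 : ℝ))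
        simp_rw [mul_assoc] at h5
        rw [← Finset.mul_sum] at h5
        linarith
      have e1 : ∀ j : Fin 3, ((φ s * T s j) ^ 2 - (φ' s * T s j + φ s * T' s j) ^ 2) =
          φ s ^ 2 * (T s j) ^ 2 - (φ' s ^ 2 * (T s j) ^ 2 + φ s ^ 2 * (T' s j) ^ 2 +
            2 * φ s * φ' s * (T s j * T' s j)) := fun j => by ring
      simp_rw [e1]
      rw [Finset.sum_sub_distrib, Finset.sum_add_distrib, Finset.sum_add_distrib,
        ← Finset.mul_sum, ← Finset.mul_sum, ← Finset.mul_sum, ← Finset.mul_sum, h1, h2, h3]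
      ring
    simp_rw [e] at hsum
    rw [intervalIntegral.integral_sub] at hsum
    · linarith
    · exact (hφc.pow 2).intervalIntegrable _ _
    · exact ((hφ'.pow 2).add ((hT'.norm.pow 2).mul (hφc.pow 2))).intervalIntegrable _ _
  · intro j _
    have h1 := hTjc j
    have h2 := hTjc' j
    exact Continuous.intervalIntegrable (by fun_prop) _ _

end Pool.Agent.Lib.Ovals46
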